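import Pool.Agent.V1190.PA.Pos

set_option autoImplicit false

/-!
An operator with property A that is not U-frequently recurrent.  The operator acts on the
complex Banach space l1 over the pairs of natural numbers, has property A, and its only
U-frequently recurrent vector is the zero vector.
-/

namespace Pool.Agent.Results.MP_b9874d_an.PropertyANotUFR

open Filter Topology Pool.Agent.V1190.PA

/-- upper density of a set of natural numbers -/
noncomputable def upperDensity (A : Set ℕ) : ℝ :=
  limsup (fun N : ℕ => ((A ∩ Set.Icc 1 N).ncard : ℝ) / N) atTop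

/-- property A -/
def PropertyA {E : Type} [NormedAddCommGroup E] [NormedSpace ℂ E] (S : E →L[ℂ] E) : Prop :=
  ∀ U : Set E, IsOpen U → U.Nonempty → ∃ x : E, 0 < upperDensity {n | (S ^ n) x ∈ U}

/-- U-frequently recurrent vectors -/
def IsUFRVector {E : Type} [NormedAddCommGroup E] [NormedSpace ℂ E] (S : E →L[ℂ] E)
    (x : E) : Prop :=
  ∀ U : Set E, IsOpen U → x ∈ U → 0 < upperDensity {n | (S ^ n) x ∈ U}

/-- U-frequently recurrent operators -/
def UFR {E : Type} [NormedAddCommGroup E] [NormedSpace ℂ E] (S : E →L[ℂ] E) : Prop :=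
  Dense {x : E | IsUFRVector S x}

open Classical in
lemma ncard_eq (A : Set ℕ) (N : ℕ) :
    (A ∩ Set.Icc 1 N).ncard = ((Finset.Icc 1 N).filter (fun n => n ∈ A)).card := by
  rw [← Set.ncard_coe_finset]
  congr 1
  ext n
  simp only [Set.mem_inter_iff, Set.mem_Icc, Finset.coe_filter, Finset.mem_Icc,
    Set.mem_ofPred_eq]
  tauto

open Classical in
lemma dens_bounds (A : Set ℕ) (N : ℕ) :
    0 ≤ ((A ∩ Set.Icc 1 N).ncard : ℝ) / N ∧ ((A ∩ Set.Icc 1 N).ncard : ℝ) / N ≤ 1 := by
  constructor
  · positivity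
  · apply div_le_one_of_le₀ _ (Nat.cast_nonneg _)
    rw [ncard_eq]
    have : ((Finset.Icc 1 N).filter (fun n => n ∈ A)).card ≤ N := by
      refine (Finset.card_filter_le _ _).trans ?_
      simp
    exact_mod_cast this

open Classical in
lemma dens_pos (A : Set ℕ) (l : ℕ) (hl : 0 < l) (h : ∀ j, j * l ∈ A) : 0 < upperDensity A := by
  have hlr : (0 : ℝ) < l := by exact_mod_cast hl
  refine lt_of_lt_of_le (show (0 : ℝ) < 1 / (2 * l) by positivity) ?_
  unfold upperDensity
  apply le_limsup_of_frequently_le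
  · apply Eventually.frequently
    filter_upwards [eventually_ge_atTop l] with N hN
    have hN0 : 0 < N := by omega
    have hNr : (0 : ℝ) < N := by exact_mod_cast hN0
    rw [ncard_eq]
    have h1 : N / l ≤ ((Finset.Icc 1 N).filter (fun n => n ∈ A)).card := by
      calc N / l = (Finset.Icc 1 (N / l)).card := by simp
        _ ≤ _ := by
          apply Finset.card_le_card_of_injOn (fun j => j * l)
          · intro j hj
            simp only [Finset.coe_Icc, Set.mem_Icc] at hj
            simp only [Finset.coe_filter, Finset.mem_Icc, Set.mem_ofPred_eq]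
            refine ⟨⟨?_, ?_⟩, h j⟩
            · exact Nat.mul_pos (by omega) hl
            · exact (Nat.mul_le_mul_right l hj.2).trans (Nat.div_mul_le_self N l)
          · intro j _ k _ hjk
            exact Nat.eq_of_mul_eq_mul_right hl hjk
    have h2 : N ≤ 2 * l * (N / l) := by
      have h3 := Nat.div_add_mod N l
      have h4 := Nat.mod_lt N hl
      have h5 : 1 ≤ N / l := (Nat.one_le_div_iff hl).mpr hN
      have h6 : l ≤ l * (N / l) := Nat.le_mul_of_pos_right l h5
      have h7 : 2 * l * (N / l) = l * (N / l) + l * (N / l) := by ring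
      omega
    rw [div_le_div_iff₀ (by positivity) hNr]
    have h8 : (N : ℝ) ≤ 2 * l * ((N / l : ℕ) : ℝ) := by exact_mod_cast h2
    have h9 : ((N / l : ℕ) : ℝ) ≤ (((Finset.Icc 1 N).filter (fun n => n ∈ A)).card : ℝ) := by
      exact_mod_cast h1
    calc (1 : ℝ) * N ≤ 2 * l * ((N / l : ℕ) : ℝ) := by linarith
      _ ≤ 2 * l * (((Finset.Icc 1 N).filter (fun n => n ∈ A)).card : ℝ) :=
          mul_le_mul_of_nonneg_left h9 (by positivity)
      _ = _ := by ring
  · exact isBoundedUnder_of ⟨1, fun N => (dens_bounds A N).2⟩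

open Classical in
lemma dens_freq (A : Set ℕ) (h : 0 < upperDensity A) :
    ∃ δ : ℝ, 0 < δ ∧ ∃ᶠ N : ℕ in atTop,
      δ * N ≤ ((Finset.Icc 1 N).filter (fun n => n ∈ A)).card := by
  refine ⟨upperDensity A / 2, by positivity, ?_⟩
  have h1 : ∃ᶠ N : ℕ in atTop, upperDensity A / 2 < ((A ∩ Set.Icc 1 N).ncard : ℝ) / N := by
    apply frequently_lt_of_lt_limsup
    · exact (isBoundedUnder_of ⟨0, fun N => (dens_bounds A N).1⟩).isCoboundedUnder_le
    · change upperDensity A / 2 < upperDensity A
      linarith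
  refine (h1.and_eventually (eventually_gt_atTop 0)).mono ?_
  rintro N ⟨hN, hN0⟩
  have hNr : (0 : ℝ) < N := by exact_mod_cast hN0
  rw [lt_div_iff₀ hNr, ncard_eq] at hN
  exact hN.le

theorem result :
    ∃ (E : Type) (_ : NormedAddCommGroup E) (_ : NormedSpace ℂ E) (_ : CompleteSpace E)
      (S : E →L[ℂ] E), PropertyA S ∧ ¬ UFR S ∧ ∀ x : E, IsUFRVector S x → x = 0 := by
  have hzero : ∀ x : X, IsUFRVector (T aa_good) x → x = 0 := by
    classical
    intro x hx
    apply ufr_zero aa_good x
    intro ε hε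
    obtain ⟨δ, hδ, h⟩ := dens_freq _ (hx (Metric.ball x ε) Metric.isOpen_ball
      (Metric.mem_ball_self hε))
    refine ⟨δ, hδ, h.mono ?_⟩
    intro N hN
    refine hN.trans (le_of_eq ?_)
    congr 2
    ext n
    simp [Metric.mem_ball, dist_eq_norm]
  refine ⟨X, inferInstance, inferInstance, inferInstance, T aa_good, ?_, ?_, hzero⟩
  · intro U hU hne
    obtain ⟨y, l, hl, h⟩ := approx U hU hne
    exact ⟨y, dens_pos _ l hl h⟩
  · intro hd
    have h1 : {x : X | IsUFRVector (T aa_good) x} ⊆ {0} := fun x hx => hzero x hx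
    have h2 : b (0, 0) ∈ closure ({0} : Set X) := closure_mono h1 (hd (b (0, 0)))
    rw [closure_singleton, Set.mem_singleton_iff] at h2
    have h3 := norm_b (0, 0)
    rw [h2, norm_zero] at h3
    norm_num at h3

end Pool.Agent.Results.MP_b9874d_an.PropertyANotUFR
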